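import Mathlib

/-! Project LF (MP_07add5_co, frozen statement S07017, weight 1, helper26): for admissible linear forms
`f = u`, `g = v` there is `A` with `|f(A)| > |g(A)|`. For every large prime `p` there is `A ⊆ F_p` with
`f(A) = F_p`, `1 ∉ g(A)` (random construction in stages with deletions); by the Chinese remainder
theorem and `∏ p/(p-1) = ∞` the ratio gets large. -/

set_option autoImplicit false

namespace Pool.Agent.X26.LF

open Finset

/-- no subform of `v` takes the value 1 on `A` -/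
def Free {m : ℕ} (v : Fin m → ℤ) (p : ℕ) (A : Finset (ZMod p)) : Prop :=
  ∀ (K : Finset (Fin m)) (a : Fin m → ZMod p), (∀ i ∈ K, a i ∈ A) →
    ∑ i ∈ K, (v i : ZMod p) * a i ≠ 1

/-- `s ∈ u(A)` -/
def Cov {m : ℕ} (u : Fin m → ℤ) (p : ℕ) (A : Finset (ZMod p)) (s : ZMod p) : Prop :=
  ∃ a : Fin m → ZMod p, (∀ i, a i ∈ A) ∧ ∑ i, (u i : ZMod p) * a i = s

/-- the index `i` takes part in a relation of `v` with value 1 between `A` and the `x`'s -/
def Bad {m N : ℕ} (v : Fin m → ℤ) (p : ℕ) (A : Finset (ZMod p)) (x : Fin N → ZMod p) (i : Fin N) :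
    Prop :=
  ∃ (K L : Finset (Fin m)) (a : Fin m → ZMod p) (κ : Fin m → Fin N), Disjoint K L ∧
    (∀ k ∈ K, a k ∈ A) ∧ (∃ k ∈ L, κ k = i) ∧
    ∑ k ∈ K, (v k : ZMod p) * a k + ∑ k ∈ L, (v k : ZMod p) * x (κ k) = 1

/-- nondegeneracy modulo `p` -/
def NP {m : ℕ} (u v : Fin m → ℤ) (p : ℕ) : Prop := (∀ i, (u i : ZMod p) ≠ 0) ∧
  ∀ (σ : Equiv.Perm (Fin m)) (l : ZMod p), ¬ ∀ i, (v i : ZMod p) = l * (u (σ i) : ZMod p)

/-- (CNT) numbers of solutions of one or two independent linear equations over `F_p`. -/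
def S_CNT : Prop := ∀ (p N : ℕ) [Fact p.Prime] (c d : Fin N → ZMod p) (s t : ZMod p), c ≠ 0 →
  (p * (univ.filter fun x : Fin N → ZMod p => ∑ i, c i * x i = s).card = p ^ N) ∧
  ((¬ ∃ l, d = fun i => l * c i) →
    p ^ 2 * (univ.filter fun x : Fin N → ZMod p =>
      ∑ i, c i * x i = s ∧ ∑ i, d i * x i = t).card = p ^ N)

open Classical in
/-- (SM) second moment. `X(x)` = number of embeddings `ι` with `∑ u_j x_{ι j} = s`, `T` = number of
embeddings. `∑_x X = T p^(N-1)`, `∑_x X² ≤ T² p^(N-2) + T m! p^(N-1)` (the two forms are independent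
unless `ι, ι'` have the same range), Cauchy-Schwarz on `X > 0`:
`#{X = 0} ≤ p^N m! p / T`. May assume S_CNT. -/
def S_SM : Prop := ∀ (m p N : ℕ) [Fact p.Prime] (u : Fin m → ZMod p) (s : ZMod p), 1 ≤ m →
  (∀ i, u i ≠ 0) → 8 * m.factorial * p ≤ N.descFactorial m →
  8 * (univ.filter fun x : Fin N → ZMod p =>
    ¬ ∃ ι : Fin m ↪ Fin N, ∑ j, u j * x (ι j) = s).card ≤ p ^ N

open Classical in
/-- (BAD) first moment. Union over `ι` (at most `N^m`), `j`, `k`, `K`, `L` (at most `m² 4^m`), `a` on `K`,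
`κ` on `L` with `κ k = ι j` (at most `n^(m-1)`, `n = |A| + N`). For each choice the number of `x` is at most
`p^(N-2)` by S_CNT: the coefficient vector `d_i = ∑_{k ∈ L, κ k = i} v_k` is not a multiple `l c` of
`c_i = u_j` (`i = ι j`), `c_i = 0` else: if `d = 0` the relation contradicts `Free`; if `d = l c`, `l ≠ 0`,
then `κ` maps `L` onto the range of `ι`, so `L = univ` and `v = l (u ∘ σ)`, against `NP`. -/
def S_BAD : Prop := S_CNT → ∀ (m p N : ℕ) [Fact p.Prime] (u v : Fin m → ℤ) (A : Finset (ZMod p))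
  (s : ZMod p), 1 ≤ m → NP u v p → Free v p A →
  p ^ 2 * (univ.filter fun x : Fin N → ZMod p => ∃ ι : Fin m ↪ Fin N,
    ∑ j, (u j : ZMod p) * x (ι j) = s ∧ ∃ j, Bad v p A x (ι j)).card
      ≤ m ^ 2 * 4 ^ m * (A.card + N) ^ (2 * m - 1) * p ^ N

open Classical in
/-- (STG) one stage. Average over `x : Fin N → ZMod p` of the number of `s ∈ U` without an embedding
`ι` with value `s` and no bad index: at most `|U| (1/8 + 1/8)`. Take such an `x` and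
`X = {x_i : i not bad}`. `Free (A ∪ X)`: in a relation let `L` be the set of `k` with `a_k ∉ A`. -/
def S_STG : Prop := S_SM → S_BAD → S_CNT → ∀ (m p N : ℕ) [Fact p.Prime] (u v : Fin m → ℤ)
  (A U : Finset (ZMod p)), 1 ≤ m → NP u v p → Free v p A →
  8 * m.factorial * p ≤ N.descFactorial m →
  8 * (m ^ 2 * 4 ^ m * (A.card + N) ^ (2 * m - 1)) ≤ p ^ 2 →
  ∃ X : Finset (ZMod p), X.card ≤ N ∧ Free v p (A ∪ X) ∧
    2 * (U.filter fun s => ¬ Cov u p X s).card ≤ U.card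

/-- (SIZ) sizes: `N` about `(C p)^(1/m)`, `(log p)^(2m-1) C' ≤ p^(1/m)` for large `p`. -/
def S_SIZ : Prop := ∀ m C : ℕ, 2 ≤ m → ∃ P : ℕ, ∀ p : ℕ, P ≤ p → ∃ N : ℕ,
  C * p ≤ N.descFactorial m ∧ C * ((Nat.log 2 p + 2) * N) ^ (2 * m - 1) ≤ p ^ 2

/-- (ITE) iteration of the stage `log 2 p + 1` times, `U` halves each time. (`|A| ≤ k N` after `k` stages.) -/
def S_ITE : Prop := (∀ (m p N : ℕ) [Fact p.Prime] (u v : Fin m → ℤ)
  (A U : Finset (ZMod p)), 1 ≤ m → NP u v p → Free v p A →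
  8 * m.factorial * p ≤ N.descFactorial m →
  8 * (m ^ 2 * 4 ^ m * (A.card + N) ^ (2 * m - 1)) ≤ p ^ 2 →
  ∃ X : Finset (ZMod p), X.card ≤ N ∧ Free v p (A ∪ X) ∧
    ∀ U' ⊆ U, (∀ s ∈ U', ¬ Cov u p X s) → 2 * U'.card ≤ U.card) → S_SIZ →
  ∀ (m : ℕ) (u v : Fin m → ℤ), 2 ≤ m → ∃ P : ℕ, ∀ p : ℕ, p.Prime → P ≤ p → NP u v p →
    ∃ A : Finset (ZMod p), Free v p A ∧ ∀ s, Cov u p A s

/-- (NPP) from the hypotheses of the frozen statement: if `v_i = l u_{σ i}` mod `p`, `p` large, then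
`v_i u_{σ k} = v_k u_{σ i}` in `ℤ`, and both gcds are 1. -/
def S_NPP : Prop := ∀ (m : ℕ) (u v : Fin m → ℤ), 1 ≤ m → (∀ i, u i ≠ 0) → (∀ i, v i ≠ 0) →
  univ.gcd u = 1 → univ.gcd v = 1 →
  (¬ ∃ σ : Equiv.Perm (Fin m), (∀ i, v i = u (σ i)) ∨ (∀ i, v i = -u (σ i))) →
  ∃ P : ℕ, ∀ p : ℕ, p.Prime → P ≤ p → NP u v p

/-- (PRD) `∏ p/(p-1)` diverges (`Nat.Primes.not_summable_one_div`, `∏ (1 + x) ≥ 1 + ∑ x`). -/
def S_PRD : Prop := ∀ P K : ℕ, ∃ S : Finset ℕ, (∀ p ∈ S, p.Prime ∧ P ≤ p) ∧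
  K * ∏ p ∈ S, (p - 1) < ∏ p ∈ S, p

/-- (CRT) `B` = all integers `0 ≤ x < ∏ p` whose residue mod `p` lies in `A p` for all `p ∈ S`. Every residue
class mod `∏ p` contains a value of `u` on `B`; the values of `v` on `B` lie in an interval of length
`(∏ p) ∑ |v_i|` and miss the class 1 modulo each `p`. -/
def S_CRT : Prop := ∀ (m : ℕ) (u v : Fin m → ℤ) (S : Finset ℕ) (A : ∀ p : ℕ, Finset (ZMod p)),
  1 ≤ m → (∀ p ∈ S, p.Prime) → (∀ p ∈ S, ∀ s, Cov u p (A p) s) → (∀ p ∈ S, Free v p (A p)) →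
  ∃ B : Finset ℤ,
    ∏ p ∈ S, p ≤ ((Fintype.piFinset fun _ : Fin m => B).image
      (fun a : Fin m → ℤ => ∑ i, u i * a i)).card ∧
    ((Fintype.piFinset fun _ : Fin m => B).image (fun a : Fin m → ℤ => ∑ i, v i * a i)).card
      ≤ (∑ i, (v i).natAbs + 1) * ∏ p ∈ S, (p - 1)

end Pool.Agent.X26.LF
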