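import Pool.Agent.X26.LF.Stm

set_option autoImplicit false

namespace Pool.Agent.X26.LF

open Finset

theorem main (hCNT : S_CNT) (hSM : S_SM) (hBAD : S_BAD) (hSTG : S_STG) (hSIZ : S_SIZ)
    (hITE : S_ITE) (hNPP : S_NPP) (hPRD : S_PRD) (hCRT : S_CRT) :
    ∀ m : ℕ, 3 ≤ m → ∀ u v : Fin m → ℤ,
      (∀ i, u i ≠ 0) → (∀ i, v i ≠ 0) →
      Finset.univ.gcd u = 1 → Finset.univ.gcd v = 1 →
      (¬ ∃ σ : Equiv.Perm (Fin m),
          (∀ i, v i = u (σ i)) ∨ (∀ i, v i = -u (σ i))) →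
      ∃ A : Finset ℤ,
        ((Fintype.piFinset fun _ : Fin m => A).image
            (fun a : Fin m → ℤ => ∑ i, v i * a i)).card <
        ((Fintype.piFinset fun _ : Fin m => A).image
            (fun a : Fin m → ℤ => ∑ i, u i * a i)).card := by
  classical
  intro m hm u v hu hv gu gv hns
  have hstage : ∀ (m p N : ℕ) [Fact p.Prime] (u v : Fin m → ℤ)
      (A U : Finset (ZMod p)), 1 ≤ m → NP u v p → Free v p A →
      8 * m.factorial * p ≤ N.descFactorial m →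
      8 * (m ^ 2 * 4 ^ m * (A.card + N) ^ (2 * m - 1)) ≤ p ^ 2 →
      ∃ X : Finset (ZMod p), X.card ≤ N ∧ Free v p (A ∪ X) ∧
        ∀ U' ⊆ U, (∀ s ∈ U', ¬ Cov u p X s) → 2 * U'.card ≤ U.card := by
    intro m p N _ u v A U h1 h2 h3 h4 h5
    obtain ⟨X, hX1, hX2, hX3⟩ := hSTG hSM hBAD hCNT m p N u v A U h1 h2 h3 h4 h5
    refine ⟨X, hX1, hX2, fun U' hU' hc => le_trans ?_ hX3⟩
    refine Nat.mul_le_mul_left 2 (card_le_card fun s hs => ?_)
    rw [mem_filter]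
    exact ⟨hU' hs, hc s hs⟩
  obtain ⟨P1, hP1⟩ := hITE hstage hSIZ m u v (by omega)
  obtain ⟨P2, hP2⟩ := hNPP m u v (by omega) hu hv gu gv hns
  obtain ⟨S, hS, hK⟩ := hPRD (max P1 P2) (∑ i, (v i).natAbs + 1)
  have hA : ∀ p : ℕ, ∃ A : Finset (ZMod p), p ∈ S → Free v p A ∧ ∀ s, Cov u p A s := by
    intro p
    by_cases hp : p ∈ S
    · obtain ⟨h1, h2⟩ := hS p hp
      obtain ⟨A, hA⟩ := hP1 p h1 (le_trans (le_max_left _ _) h2)
        (hP2 p h1 (le_trans (le_max_right _ _) h2))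
      exact ⟨A, fun _ => hA⟩
    · exact ⟨∅, fun h => absurd h hp⟩
  choose A hA using hA
  obtain ⟨B, h1, h2⟩ := hCRT m u v S A (by omega) (fun p hp => (hS p hp).1)
    (fun p hp => (hA p hp).2) (fun p hp => (hA p hp).1)
  exact ⟨B, lt_of_le_of_lt h2 (lt_of_lt_of_le hK h1)⟩

end Pool.Agent.X26.LF
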